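import Pool.Agent.U492.VB.Bound

/-!
Canonical degrees and genera of the curves on the blow-ups of algebraically hyperbolic surfaces.
-/

set_option autoImplicit false

open MvPolynomial FF Pool.Agent.W603.LV Pool.Agent.W603.PV

namespace Pool.Agent.U492.VH

open Pool.Agent.N126.RC Pool.Agent.U492.VB

variable {K : Type} [Field K] [IsAlgClosed K] [CharZero K] {n : ℕ} {W ι : Type}

/-- The inequality for all curves on the blow-up of an algebraically hyperbolic surface. -/
theorem curve_inequality [Fintype W] (e : W → ℕ) (G : ι → MvPolynomial (Fin (n + 1) ⊕ W) K)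
    (hGh : ∀ i, ∃ c, (G i).IsWeightedHomogeneous (wts e) c) (hfo : FiniteOver G)
    (η : ℚ) (hη0 : 0 < η) (hM : CurveBound G η)
    (κ : ℚ) (hκ0 : 0 ≤ κ) (hκ : CanonicalBound e G 2 κ) {S : Finset (Fin (n + 1) ⊕ W → K)}
    (hS : PointSet e G S) (lam : Fin 3 → Fin (n + 1) → K) (hfp : FinitePlane lam G)
    (Y : Finset (Fin 3 → K)) (hY : PlaneImage lam S Y) (α : ℚ) (hα : κ ≤ α * η)
    (hs : (Y.card : ℚ) ≤ (α * η - κ) ^ 2) : CurveInequality e G S 2 α := by
  intro ε hε
  have hεη : 0 < ε * η := mul_pos hε hη0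
  have hs' : (Y.card : ℚ) < ((α + ε) * η - κ) ^ 2 := by
    refine hs.trans_lt ?_
    have h1 : 0 ≤ α * η - κ := by linarith
    have h2 : α * η - κ < (α + ε) * η - κ := by linarith
    exact pow_lt_pow_left₀ h2 h1 two_ne_zero
  obtain ⟨r, δ, hr, hδ, hsr⟩ := exists_nums Y.card ((α + ε) * η - κ) (by linarith) hs'
  obtain ⟨ψ, hψ0, hψh, hψY⟩ := exists_plane Y hY.1 δ r hsr
  have hfp' := hfp
  choose p hpm hpG using hfp'
  obtain ⟨N, hN⟩ : ∃ N : ℤ, N = 3 * (δ * ∏ v, ((p v).natDegree : ℤ)) := ⟨_, rfl⟩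
  have hN0 : (0 : ℚ) ≤ N := by
    have : 0 ≤ N := by rw [hN]; positivity
    exact_mod_cast this
  refine ⟨(κ + S.card) * N, ?_⟩
  intro L _ _ _ z c hz1 hz hnc htop u hu
  have hB : (0 : ℚ) ≤ (κ + S.card) * N := by positivity
  have h1 := hM L z c hz1 hz hnc
  have h2 := hκ L z c hz1 hz hnc u hu
  have h5 : (canBl K e S z u : ℚ) = canX K e z u + excDeg K e S z := by
    unfold canBl
    push_cast
    ring
  have h6 : (0 : ℚ) ≤ pht K fun j => z (Sum.inl j) := by
    exact_mod_cast pht_nonneg' (K := K) (c := c) hz1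
  have hα0 : 0 ≤ α + ε := by
    by_contra hcon
    push Not at hcon
    have := mul_neg_of_neg_of_pos hcon hη0
    linarith
  rw [h5]
  by_cases hψz : aeval (toPlane lam z) ψ = 0
  · have h3 := excDeg_le_height (δ := S.card) hGh hfo z hz hz1 hnc hS (Or.inl le_rfl)
    have h4 : (excDeg K e S z : ℚ) ≤ S.card * pht K fun j => z (Sum.inl j) := by exact_mod_cast h3
    have h7 := pht_bound hGh p hpm hpG z hz hz1 hnc htop hψh hψ0 hψz
    rw [← hN] at h7
    have h8 : (pht K (fun j => z (Sum.inl j)) : ℚ) ≤ N := by exact_mod_cast h7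
    have h9 : 0 ≤ (α + ε) * canDeg K L :=
      mul_nonneg hα0 ((mul_nonneg hη0.le h6).trans h1)
    have h10 : (κ + S.card) * (pht K (fun j => z (Sum.inl j)) : ℚ) ≤ (κ + S.card) * N :=
      mul_le_mul_of_nonneg_left h8 (by positivity)
    linarith
  · have hx : (fun j => z (Sum.inl j)) ≠ 0 := ne_zero_of_one (c := c) hz1
    have h3 : r * excDeg K e S z ≤ δ * pht K fun j => z (Sum.inl j) :=
      excDeg_le_r hx (fun P s => ge_coords hGh hfo z hz hx P s) hψh hψz
        (fun p hp => (hS.1 p hp).2) hS.2 (fun p hp => by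
          obtain ⟨y, hy, ht⟩ := hY.2 p hp
          exact ⟨y, ht, hψY y hy⟩)
    have h4 : (r : ℚ) * excDeg K e S z ≤ δ * pht K fun j => z (Sum.inl j) := by exact_mod_cast h3
    have hr0 : (0 : ℚ) < r := by exact_mod_cast hr
    have h9 : (excDeg K e S z : ℚ) ≤ ((α + ε) * η - κ) * pht K fun j => z (Sum.inl j) := by
      have h10 := h4.trans (mul_le_mul_of_nonneg_right hδ h6)
      rw [mul_comm ((α + ε) * η - κ) (r : ℚ), mul_assoc] at h10
      exact le_of_mul_le_mul_left h10 hr0
    have h10 : (α + ε) * (η * pht K fun j => z (Sum.inl j)) ≤ (α + ε) * canDeg K L :=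
      mul_le_mul_of_nonneg_left h1 hα0
    have h11 : (canX K e z u : ℚ) + excDeg K e S z ≤
        (α + ε) * (η * pht K fun j => z (Sum.inl j)) := by
      have h12 : (α + ε) * (η * pht K fun j => z (Sum.inl j)) =
          κ * (pht K fun j => z (Sum.inl j)) + ((α + ε) * η - κ) *
            (pht K fun j => z (Sum.inl j)) := by ring
      rw [h12]
      linarith
    linarith

end Pool.Agent.U492.VH
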